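import Pool.Agent.H24.Tri.Defs

set_option autoImplicit false

/-! # TRI-FIN, part A: Gaussians and the trilinear form of real functions -/

open MeasureTheory Set Complex Metric Filter Topology
open scoped Real ENNReal NNReal ComplexConjugate

namespace Pool.Agent.H24.Tri

/-! ## Gaussians -/

theorem Fin_gauss_nonneg (s : ℝ) (w : ℂ) : 0 ≤ gauss s w := by
  unfold gauss
  positivity

theorem Fin_gauss_measurable (s : ℝ) : Measurable (gauss s) := by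
  unfold gauss
  fun_prop

theorem Fin_gauss_form (s : ℝ) (w : ℂ) :
    gauss s w = (s ^ 2)⁻¹ * Real.exp (-(π / s ^ 2) * ‖w‖ ^ 2) := by
  unfold gauss
  congr 2
  ring

theorem Fin_gauss_integral {s : ℝ} (hs : 0 < s) : ∫ w, gauss s w = 1 := by
  have h1 : ∀ w, gauss s w = (s ^ 2)⁻¹ * Real.exp (-(π / s ^ 2) * ‖w‖ ^ 2) := Fin_gauss_form s
  simp_rw [h1]
  rw [integral_const_mul, GaussianFourier.integral_rexp_neg_mul_sq_norm (by positivity)]
  rw [Complex.finrank_real_complex]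
  have hπ : π ≠ 0 := Real.pi_ne_zero
  have h2 : π / (π / s ^ 2) = s ^ 2 := by
    field_simp
  rw [h2]
  norm_num
  field_simp

theorem Fin_gauss_integrable {s : ℝ} (hs : 0 < s) : Integrable (gauss s) := by
  by_contra h
  have h1 := Fin_gauss_integral hs
  rw [integral_undef h] at h1
  exact zero_ne_one h1

theorem Fin_gauss_scale {δ d : ℝ} (hd : 0 < d) (w : ℂ) :
    gauss (δ * d) (d • w) = (d ^ 2)⁻¹ * gauss δ w := by
  unfold gauss
  rw [norm_smul, Real.norm_of_nonneg hd.le]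
  have h1 : -π * (d * ‖w‖) ^ 2 / (δ * d) ^ 2 = -π * ‖w‖ ^ 2 / δ ^ 2 := by
    by_cases hδ : δ = 0
    · subst hδ
      simp
    · field_simp
  rw [h1, mul_pow, mul_inv]
  ring

theorem Fin_gauss_lower {s : ℝ} (hs : 0 < s) {w : ℂ} (hw : ‖w‖ ≤ s) :
    (s ^ 2)⁻¹ * Real.exp (-π) ≤ gauss s w := by
  unfold gauss
  apply mul_le_mul_of_nonneg_left _ (by positivity)
  rw [Real.exp_le_exp, le_div_iff₀ (by positivity)]
  have h1 : ‖w‖ ^ 2 ≤ s ^ 2 := pow_le_pow_left₀ (norm_nonneg _) hw 2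
  have := Real.pi_pos
  nlinarith

theorem Fin_gauss_tail_pt {δ : ℝ} (h0 : 0 < δ) (h1 : δ ≤ 1) {w : ℂ} (hw : 1 < ‖w‖) :
    gauss δ w ≤ δ * Real.exp π * gauss 1 w := by
  have hπ := Real.pi_pos
  have h2 : 1 ≤ (δ ^ 2)⁻¹ := by
    rw [one_le_inv₀ (by positivity)]
    exact pow_le_one₀ h0.le h1
  have h3 : gauss δ w ≤ (δ ^ 2)⁻¹ * (Real.exp (-(π / δ ^ 2)) * Real.exp π * gauss 1 w) := by
    rw [Fin_gauss_form, Fin_gauss_form]
    apply mul_le_mul_of_nonneg_left _ (by positivity)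
    rw [one_pow, inv_one, one_mul, ← Real.exp_add, ← Real.exp_add, Real.exp_le_exp, div_one,
      div_eq_mul_inv]
    have h4 : 1 ≤ ‖w‖ ^ 2 := one_le_pow₀ hw.le
    nlinarith [mul_nonneg (mul_nonneg hπ.le (sub_nonneg.2 h2)) (sub_nonneg.2 h4)]
  have h5 : (δ ^ 2)⁻¹ * Real.exp (-(π / δ ^ 2)) ≤ δ := by
    have h6 : (π / δ ^ 2) ^ 2 / 2 ≤ Real.exp (π / δ ^ 2) := by
      have := Real.quadratic_le_exp_of_nonneg (x := π / δ ^ 2) (by positivity)
      have h7 : 0 ≤ π / δ ^ 2 := by positivity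
      linarith
    rw [Real.exp_neg]
    have h8 : 0 < (π / δ ^ 2) ^ 2 / 2 := by positivity
    have h9 : (Real.exp (π / δ ^ 2))⁻¹ ≤ ((π / δ ^ 2) ^ 2 / 2)⁻¹ := inv_anti₀ h8 h6
    refine (mul_le_mul_of_nonneg_left h9 (by positivity)).trans ?_
    have h10 : (δ ^ 2)⁻¹ * ((π / δ ^ 2) ^ 2 / 2)⁻¹ = 2 / π ^ 2 * δ * δ := by
      field_simp
    rw [h10]
    have h11 : 2 / π ^ 2 ≤ 1 := by
      rw [div_le_one (by positivity)]
      have := Real.pi_gt_three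
      nlinarith
    have h12 : 2 / π ^ 2 * δ ≤ 1 := by
      calc 2 / π ^ 2 * δ ≤ 1 * 1 := mul_le_mul h11 h1 h0.le (by norm_num)
        _ = 1 := by norm_num
    calc 2 / π ^ 2 * δ * δ ≤ 1 * δ := mul_le_mul_of_nonneg_right h12 h0.le
      _ = δ := one_mul _
  refine h3.trans ?_
  have h13 : (δ ^ 2)⁻¹ * (Real.exp (-(π / δ ^ 2)) * Real.exp π * gauss 1 w) =
      ((δ ^ 2)⁻¹ * Real.exp (-(π / δ ^ 2))) * (Real.exp π * gauss 1 w) := by ring
  rw [h13, mul_assoc δ]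
  exact mul_le_mul_of_nonneg_right h5 (mul_nonneg (Real.exp_pos _).le (Fin_gauss_nonneg _ _))

/-- The tail of the Gaussian. -/
theorem Fin_gauss_tail {δ : ℝ} (h0 : 0 < δ) (h1 : δ ≤ 1) :
    ∫ w, gauss δ w * {w : ℂ | 1 < ‖w‖}.indicator (fun _ => (1 : ℝ)) w ≤ δ * Real.exp π := by
  have hπ := Real.pi_pos
  have hm : MeasurableSet {w : ℂ | 1 < ‖w‖} := measurableSet_lt measurable_const measurable_norm
  have h2 : ∫ w, gauss δ w * {w : ℂ | 1 < ‖w‖}.indicator (fun _ => (1 : ℝ)) w ≤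
      ∫ w, δ * Real.exp π * gauss 1 w := by
    apply integral_mono_of_nonneg
    · refine Eventually.of_forall fun w => ?_
      exact mul_nonneg (Fin_gauss_nonneg _ _) (indicator_nonneg (fun _ _ => zero_le_one) _)
    · exact (Fin_gauss_integrable one_pos).const_mul _
    · refine Eventually.of_forall fun w => ?_
      by_cases hw : 1 < ‖w‖
      · show gauss δ w * {w : ℂ | 1 < ‖w‖}.indicator (fun _ => (1 : ℝ)) w ≤ _
        rw [indicator_of_mem (by exact hw), mul_one]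
        exact Fin_gauss_tail_pt h0 h1 hw
      · show gauss δ w * {w : ℂ | 1 < ‖w‖}.indicator (fun _ => (1 : ℝ)) w ≤ _
        rw [indicator_of_notMem (by exact hw), mul_zero]
        exact mul_nonneg (mul_nonneg h0.le (Real.exp_pos _).le) (Fin_gauss_nonneg _ _)
  rw [integral_const_mul, Fin_gauss_integral one_pos, mul_one] at h2
  exact h2

/-! ## The trilinear form -/

/-- `∫ f₁(z) f₂(z+v) f₃(z+ρv) dz` for real functions -/
noncomputable def Fin_T (ρ : ℂ) (f₁ f₂ f₃ : ℂ → ℝ) (v : ℂ) : ℝ :=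
  ∫ z, f₁ z * f₂ (z + v) * f₃ (z + ρ * v)

theorem Fin_cis_measurable : Measurable cis := by
  unfold cis
  fun_prop

theorem Fin_T_measurable (ρ : ℂ) {f₁ f₂ f₃ : ℂ → ℝ} (h₁ : Measurable f₁) (h₂ : Measurable f₂)
    (h₃ : Measurable f₃) : Measurable (Fin_T ρ f₁ f₂ f₃) := by
  have h : StronglyMeasurable (Function.uncurry fun v z : ℂ =>
      f₁ z * f₂ (z + v) * f₃ (z + ρ * v)) := by
    apply Measurable.stronglyMeasurable
    have a1 : Measurable fun p : ℂ × ℂ => f₁ p.2 := h₁.comp measurable_snd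
    have a2 : Measurable fun p : ℂ × ℂ => f₂ (p.2 + p.1) :=
      h₂.comp (measurable_snd.add measurable_fst)
    have a3 : Measurable fun p : ℂ × ℂ => f₃ (p.2 + ρ * p.1) :=
      h₃.comp (measurable_snd.add (measurable_fst.const_mul ρ))
    exact (a1.mul a2).mul a3
  exact h.integral_prod_right.measurable

/-- The integrand is integrable. -/
theorem Fin_T_integrable (ρ : ℂ) {f₁ f₂ f₃ : ℂ → ℝ} (h₁ : Integrable f₁) (m₁ : Measurable f₁)
    (h₂ : Measurable f₂) (h₃ : Measurable f₃) (p₁ : ∀ z, 0 ≤ f₁ z)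
    (p₂ : ∀ z, 0 ≤ f₂ z) (q₂ : ∀ z, f₂ z ≤ 1) (p₃ : ∀ z, 0 ≤ f₃ z) (q₃ : ∀ z, f₃ z ≤ 1) (v : ℂ) :
    Integrable fun z => f₁ z * f₂ (z + v) * f₃ (z + ρ * v) := by
  refine h₁.mono ?_ (Eventually.of_forall fun z => ?_)
  · exact ((m₁.mul (h₂.comp (measurable_id.add_const v))).mul
      (h₃.comp (measurable_id.add_const (ρ * v)))).aestronglyMeasurable
  · rw [Real.norm_of_nonneg (mul_nonneg (mul_nonneg (p₁ z) (p₂ _)) (p₃ _)),
      Real.norm_of_nonneg (p₁ z)]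
    calc f₁ z * f₂ (z + v) * f₃ (z + ρ * v) ≤ f₁ z * 1 * 1 := by
          apply mul_le_mul _ (q₃ _) (p₃ _) (mul_nonneg (p₁ z) zero_le_one)
          exact mul_le_mul_of_nonneg_left (q₂ _) (p₁ z)
      _ = f₁ z := by ring

theorem Fin_T_nonneg (ρ : ℂ) {f₁ f₂ f₃ : ℂ → ℝ} (p₁ : ∀ z, 0 ≤ f₁ z)
    (p₂ : ∀ z, 0 ≤ f₂ z) (p₃ : ∀ z, 0 ≤ f₃ z) (v : ℂ) : 0 ≤ Fin_T ρ f₁ f₂ f₃ v :=
  integral_nonneg fun z => mul_nonneg (mul_nonneg (p₁ z) (p₂ _)) (p₃ _)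

theorem Fin_T_le (ρ : ℂ) {f₁ f₂ f₃ : ℂ → ℝ} (h₁ : Integrable f₁) (m₁ : Measurable f₁)
    (h₂ : Measurable f₂) (h₃ : Measurable f₃) (p₁ : ∀ z, 0 ≤ f₁ z)
    (p₂ : ∀ z, 0 ≤ f₂ z) (q₂ : ∀ z, f₂ z ≤ 1) (p₃ : ∀ z, 0 ≤ f₃ z) (q₃ : ∀ z, f₃ z ≤ 1) (v : ℂ) :
    Fin_T ρ f₁ f₂ f₃ v ≤ ∫ z, f₁ z := by
  refine integral_mono (Fin_T_integrable ρ h₁ m₁ h₂ h₃ p₁ p₂ q₂ p₃ q₃ v) h₁ fun z => ?_
  calc f₁ z * f₂ (z + v) * f₃ (z + ρ * v) ≤ f₁ z * 1 * 1 := by
        apply mul_le_mul _ (q₃ _) (p₃ _) (mul_nonneg (p₁ z) zero_le_one)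
        exact mul_le_mul_of_nonneg_left (q₂ _) (p₁ z)
    _ = f₁ z := by ring

/-- Scaling. -/
theorem Fin_T_scale (ρ : ℂ) (f : ℂ → ℝ) {d : ℝ} (hd : 0 < d) (v : ℂ) :
    Fin_T ρ f f f (d • v) =
      d ^ 2 * Fin_T ρ (fun z => f (d • z)) (fun z => f (d • z)) (fun z => f (d • z)) v := by
  unfold Fin_T
  have h := Measure.integral_comp_smul_of_nonneg (volume : Measure ℂ)
    (fun z => f z * f (z + d • v) * f (z + ρ * d • v)) d (hR := hd.le)
  have h2 : ∫ z : ℂ, f (d • z) * f (d • (z + v)) * f (d • (z + ρ * v)) =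
      ∫ z : ℂ, f (d • z) * f (d • z + d • v) * f (d • z + ρ * d • v) := by
    refine integral_congr_ae (Eventually.of_forall fun z => ?_)
    show f (d • z) * f (d • (z + v)) * f (d • (z + ρ * v)) = _
    rw [smul_add, smul_add, mul_smul_comm]
  rw [h2, h, Complex.finrank_real_complex, smul_eq_mul, ← mul_assoc,
    mul_inv_cancel₀ (by positivity), one_mul]

end Pool.Agent.H24.Tri
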