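import Pool.Agent.H1.Tri.FinA

set_option autoImplicit false

/-! # TRI-FIN, part B: localisation to unit squares -/

open MeasureTheory Set Complex Metric Filter Topology
open scoped Real ENNReal NNReal ComplexConjugate

namespace Pool.Agent.H24.Tri

/-- the unit square with lower left corner `gi p` -/
def Fin_Q (p : ℤ × ℤ) : Set ℂ := {z | ⌊z.re⌋ = p.1 ∧ ⌊z.im⌋ = p.2}

theorem Fin_Q_measurable (p : ℤ × ℤ) : MeasurableSet (Fin_Q p) := by
  have h1 : Measurable fun z : ℂ => ⌊z.re⌋ := Int.measurable_floor.comp Complex.measurable_re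
  have h2 : Measurable fun z : ℂ => ⌊z.im⌋ := Int.measurable_floor.comp Complex.measurable_im
  exact (h1 (measurableSet_singleton p.1)).inter (h2 (measurableSet_singleton p.2))

theorem Fin_norm_Q0 {z : ℂ} (hz : z ∈ Fin_Q 0) : ‖z‖ < 2 := by
  obtain ⟨h1, h2⟩ := hz
  have a1 : ⌊z.re⌋ = 0 := h1
  have a2 : ⌊z.im⌋ = 0 := h2
  rw [Int.floor_eq_iff] at a1 a2
  push_cast at a1 a2
  have h3 := Complex.norm_le_abs_re_add_abs_im z
  rw [abs_of_nonneg a1.1, abs_of_nonneg a2.1] at h3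
  linarith [a1.2, a2.2]

theorem Fin_vol_Q0 : volume.real (Fin_Q 0) ≤ 4 * π := by
  have h1 : Fin_Q 0 ⊆ closedBall 0 2 := fun z hz => by
    rw [mem_closedBall, dist_zero_right]
    exact (Fin_norm_Q0 hz).le
  have h2 : volume.real (closedBall (0 : ℂ) 2) = 4 * π := by
    rw [Measure.real, Complex.volume_closedBall, ENNReal.toReal_mul]
    rw [show (ENNReal.ofReal 2 ^ 2).toReal = 4 by
      rw [ENNReal.toReal_pow, ENNReal.toReal_ofReal (by norm_num)]; norm_num]
    rfl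
  rw [← h2]
  refine measureReal_mono h1 ?_
  exact measure_closedBall_lt_top.ne

/-- `∫ T(cis θ + w) dθ` -/
noncomputable def Fin_L (ρ : ℂ) (f₁ f₂ f₃ : ℂ → ℝ) (w : ℂ) : ℝ :=
  ∫ θ in Ioc 0 (2 * π), Fin_T ρ f₁ f₂ f₃ (cis θ + w)

theorem Fin_L_measurable (ρ : ℂ) {f₁ f₂ f₃ : ℂ → ℝ} (h₁ : Measurable f₁) (h₂ : Measurable f₂)
    (h₃ : Measurable f₃) : Measurable (Fin_L ρ f₁ f₂ f₃) := by
  have h : StronglyMeasurable (Function.uncurry fun (w : ℂ) (θ : ℝ) =>
      Fin_T ρ f₁ f₂ f₃ (cis θ + w)) := by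
    apply Measurable.stronglyMeasurable
    exact (Fin_T_measurable ρ h₁ h₂ h₃).comp
      ((Fin_cis_measurable.comp measurable_snd).add measurable_fst)
  exact h.integral_prod_right.measurable

theorem Fin_L_nonneg (ρ : ℂ) {f₁ f₂ f₃ : ℂ → ℝ} (p₁ : ∀ z, 0 ≤ f₁ z)
    (p₂ : ∀ z, 0 ≤ f₂ z) (p₃ : ∀ z, 0 ≤ f₃ z) (w : ℂ) : 0 ≤ Fin_L ρ f₁ f₂ f₃ w :=
  integral_nonneg fun _ => Fin_T_nonneg ρ p₁ p₂ p₃ _

theorem Fin_L_le (ρ : ℂ) {f₁ f₂ f₃ : ℂ → ℝ} (h₁ : Integrable f₁) (m₁ : Measurable f₁)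
    (h₂ : Measurable f₂) (h₃ : Measurable f₃) (p₁ : ∀ z, 0 ≤ f₁ z)
    (p₂ : ∀ z, 0 ≤ f₂ z) (q₂ : ∀ z, f₂ z ≤ 1) (p₃ : ∀ z, 0 ≤ f₃ z) (q₃ : ∀ z, f₃ z ≤ 1) (w : ℂ) :
    Fin_L ρ f₁ f₂ f₃ w ≤ 2 * π * ∫ z, f₁ z := by
  have h : Fin_L ρ f₁ f₂ f₃ w ≤ ∫ _θ in Ioc 0 (2 * π), ∫ z, f₁ z := by
    unfold Fin_L
    refine integral_mono_of_nonneg (Eventually.of_forall fun _ => Fin_T_nonneg ρ p₁ p₂ p₃ _) ?_
      (Eventually.of_forall fun _ => Fin_T_le ρ h₁ m₁ h₂ h₃ p₁ p₂ q₂ p₃ q₃ _)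
    exact integrable_const _
  rw [integral_const, smul_eq_mul, measureReal_restrict_apply MeasurableSet.univ, univ_inter,
    Real.volume_real_Ioc_of_le (by positivity)] at h
  simpa using h

/-- A bounded measurable function times the Gaussian is integrable. -/
theorem Fin_gauss_mul_integrable {δ : ℝ} (h0 : 0 < δ) {F : ℂ → ℝ} (hF : Measurable F) {C : ℝ}
    (h1 : ∀ w, 0 ≤ F w) (h2 : ∀ w, F w ≤ C) : Integrable fun w => gauss δ w * F w := by
  refine ((Fin_gauss_integrable h0).const_mul C).mono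
    ((Fin_gauss_measurable δ).mul hF).aestronglyMeasurable (Eventually.of_forall fun w => ?_)
  have hC : 0 ≤ C := (h1 0).trans (h2 0)
  rw [Real.norm_of_nonneg (mul_nonneg (Fin_gauss_nonneg _ _) (h1 w)),
    Real.norm_of_nonneg (mul_nonneg hC (Fin_gauss_nonneg _ _)), mul_comm C]
  exact mul_le_mul_of_nonneg_left (h2 w) (Fin_gauss_nonneg _ _)

theorem Fin_tri_ofReal (ρ : ℂ) (f₁ f₂ f₃ : ℂ → ℝ) (v : ℂ) :
    tri ρ (fun z => (f₁ z : ℂ)) (fun z => (f₂ z : ℂ)) (fun z => (f₃ z : ℂ)) v =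
      (Fin_T ρ f₁ f₂ f₃ v : ℂ) := by
  unfold tri Fin_T
  rw [← integral_complex_ofReal]
  refine integral_congr_ae (Eventually.of_forall fun z => ?_)
  push_cast
  rfl

theorem Fin_Lam_ofReal (ρ : ℂ) (f₁ f₂ f₃ : ℂ → ℝ) (w : ℂ) :
    Lam ρ (fun z => (f₁ z : ℂ)) (fun z => (f₂ z : ℂ)) (fun z => (f₃ z : ℂ)) w =
      (Fin_L ρ f₁ f₂ f₃ w : ℂ) := by
  unfold Lam Fin_L
  rw [← integral_complex_ofReal]
  refine integral_congr_ae (Eventually.of_forall fun θ => ?_)
  exact Fin_tri_ofReal ρ f₁ f₂ f₃ _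

theorem Fin_LamK_ofReal (ρ : ℂ) (δ : ℝ) (f₁ f₂ f₃ : ℂ → ℝ) :
    LamK ρ (gaussC δ) (fun z => (f₁ z : ℂ)) (fun z => (f₂ z : ℂ)) (fun z => (f₃ z : ℂ)) =
      ((∫ w, gauss δ w * Fin_L ρ f₁ f₂ f₃ w : ℝ) : ℂ) := by
  unfold LamK
  rw [← integral_complex_ofReal]
  refine integral_congr_ae (Eventually.of_forall fun w => ?_)
  show gaussC δ w * Lam ρ _ _ _ w = _
  rw [Fin_Lam_ofReal]
  unfold gaussC
  push_cast
  rfl

theorem Fin_norm_cis (θ : ℝ) : ‖cis θ‖ = 1 := by
  unfold cis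
  exact Complex.norm_exp_ofReal_mul_I θ

/-- The smoothing hypothesis at width `δ`. -/
def Fin_Sm (ρ : ℂ) (δ D ε : ℝ) : Prop :=
  ∀ f₁ f₂ f₃ : ℂ → ℂ, Measurable f₁ → Measurable f₂ → Measurable f₃ →
    (∀ z, ‖f₁ z‖ ≤ 1) → (∀ z, ‖f₂ z‖ ≤ 1) → (∀ z, ‖f₃ z‖ ≤ 1) →
    (∀ z, D ≤ ‖z‖ → f₁ z = 0) → (∀ z, D ≤ ‖z‖ → f₂ z = 0) → (∀ z, D ≤ ‖z‖ → f₃ z = 0) →
    ‖Lam ρ f₁ f₂ f₃ 0 - LamK ρ (gaussC δ) f₁ f₂ f₃‖ ≤ ε

/-- One square. -/
theorem Fin_loc1 (ρ : ℂ) {δ ε : ℝ} (h0 : 0 < δ) (h1 : δ ≤ 1) (hS : Fin_Sm ρ δ (4 + 2 * ‖ρ‖) ε)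
    {G : ℂ → ℝ} (hG : Measurable G) (G0 : ∀ z, 0 ≤ G z) (G1 : ∀ z, G z ≤ 1)
    (hbad : ∀ z θ, G z * G (z + cis θ) * G (z + ρ * cis θ) = 0) :
    ∫ w, gauss δ w * Fin_L ρ ((Fin_Q 0).indicator G) G G w ≤
      ε + 8 * π ^ 2 * (δ * Real.exp π) := by
  classical
  have hπ := Real.pi_pos
  set D : ℝ := 4 + 2 * ‖ρ‖ with hD
  set f : ℂ → ℝ := (Fin_Q 0).indicator G with hf
  set g : ℂ → ℝ := {z : ℂ | ‖z‖ < D}.indicator G with hg
  have mf : Measurable f := hG.indicator (Fin_Q_measurable 0)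
  have mg : Measurable g := hG.indicator (measurableSet_lt measurable_norm measurable_const)
  have f0 : ∀ z, 0 ≤ f z := fun z => indicator_nonneg (fun z _ => G0 z) z
  have g0 : ∀ z, 0 ≤ g z := fun z => indicator_nonneg (fun z _ => G0 z) z
  have f1 : ∀ z, f z ≤ 1 := fun z => by
    rw [hf, indicator_apply]
    split_ifs
    · exact G1 z
    · exact zero_le_one
  have g1 : ∀ z, g z ≤ 1 := fun z => by
    rw [hg, indicator_apply]
    split_ifs
    · exact G1 z
    · exact zero_le_one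
  have hvol : volume (Fin_Q 0) ≠ ∞ := by
    refine ne_top_of_le_ne_top (measure_closedBall_lt_top (x := (0 : ℂ)) (r := 2)).ne
      (measure_mono fun z hz => ?_)
    rw [mem_closedBall, dist_zero_right]
    exact (Fin_norm_Q0 hz).le
  have hone : Integrable ((Fin_Q 0).indicator (fun _ => (1 : ℝ))) :=
    (integrable_indicator_iff (Fin_Q_measurable 0)).2 (integrableOn_const hvol)
  have hle : ∀ z, f z ≤ (Fin_Q 0).indicator (fun _ => (1 : ℝ)) z := fun z =>
    indicator_le_indicator (G1 z)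
  have intf : Integrable f := by
    refine hone.mono mf.aestronglyMeasurable (Eventually.of_forall fun z => ?_)
    rw [Real.norm_of_nonneg (f0 z), Real.norm_of_nonneg (indicator_nonneg (fun _ _ => zero_le_one) z)]
    exact hle z
  have hintf : ∫ z, f z ≤ 4 * π := by
    refine (integral_mono intf hone hle).trans ?_
    rw [integral_indicator (Fin_Q_measurable 0), setIntegral_const, smul_eq_mul, mul_one]
    exact Fin_vol_Q0
  -- the value of `Lam` is zero
  have hLam : Lam ρ (fun z => (f z : ℂ)) (fun z => (g z : ℂ)) (fun z => (g z : ℂ)) 0 = 0 := by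
    rw [Fin_Lam_ofReal]
    have : Fin_L ρ f g g 0 = 0 := by
      unfold Fin_L Fin_T
      have h2 : ∀ θ : ℝ, ∫ z, f z * g (z + (cis θ + 0)) * g (z + ρ * (cis θ + 0)) = 0 := by
        intro θ
        have h3 : ∀ z, f z * g (z + (cis θ + 0)) * g (z + ρ * (cis θ + 0)) = 0 := by
          intro z
          rw [add_zero]
          have h4 := hbad z θ
          rcases mul_eq_zero.1 h4 with h5 | h5
          · rcases mul_eq_zero.1 h5 with h6 | h6
            · have : f z = 0 := by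
                rw [hf, indicator_apply, h6, ite_self]
              rw [this, zero_mul, zero_mul]
            · have : g (z + cis θ) = 0 := by
                rw [hg, indicator_apply, h6, ite_self]
              rw [this, mul_zero, zero_mul]
          · have : g (z + ρ * cis θ) = 0 := by
              rw [hg, indicator_apply, h5, ite_self]
            rw [this, mul_zero]
        simp_rw [h3]
        exact integral_zero _ _
      simp_rw [h2]
      exact integral_zero _ _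
    rw [this, Complex.ofReal_zero]
  have hmain : ∫ w, gauss δ w * Fin_L ρ f g g w ≤ ε := by
    have h2 := hS (fun z => (f z : ℂ)) (fun z => (g z : ℂ)) (fun z => (g z : ℂ))
      (Complex.measurable_ofReal.comp mf) (Complex.measurable_ofReal.comp mg)
      (Complex.measurable_ofReal.comp mg)
      (fun z => by rw [Complex.norm_real, Real.norm_of_nonneg (f0 z)]; exact f1 z)
      (fun z => by rw [Complex.norm_real, Real.norm_of_nonneg (g0 z)]; exact g1 z)
      (fun z => by rw [Complex.norm_real, Real.norm_of_nonneg (g0 z)]; exact g1 z)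
      (fun z hz => by
        have : z ∉ Fin_Q 0 := fun h => by
          have := Fin_norm_Q0 h
          have := norm_nonneg ρ
          linarith
        rw [hf, indicator_of_notMem this, Complex.ofReal_zero])
      (fun z hz => by
        have : z ∉ {z : ℂ | ‖z‖ < D} := fun h => absurd hz (not_le.2 h)
        rw [hg, indicator_of_notMem this, Complex.ofReal_zero])
      (fun z hz => by
        have : z ∉ {z : ℂ | ‖z‖ < D} := fun h => absurd hz (not_le.2 h)
        rw [hg, indicator_of_notMem this, Complex.ofReal_zero])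
    rw [hLam, Fin_LamK_ofReal, zero_sub, norm_neg, Complex.norm_real] at h2
    exact (Real.le_norm_self _).trans h2
  -- comparison for each `w`
  have hcmp : ∀ w, Fin_L ρ f G G w ≤
      Fin_L ρ f g g w + 8 * π ^ 2 * {w : ℂ | 1 < ‖w‖}.indicator (fun _ => (1 : ℝ)) w := by
    intro w
    by_cases hw : 1 < ‖w‖
    · rw [indicator_of_mem (by exact hw), mul_one]
      have h3 := Fin_L_le ρ intf mf hG hG f0 G0 G1 G0 G1 w
      have h4 := Fin_L_nonneg ρ f0 g0 g0 w
      have h5 : 2 * π * ∫ z, f z ≤ 2 * π * (4 * π) :=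
        mul_le_mul_of_nonneg_left hintf (by positivity)
      nlinarith
    · rw [indicator_of_notMem (by exact hw), mul_zero, add_zero]
      rw [not_lt] at hw
      apply le_of_eq
      unfold Fin_L
      refine integral_congr_ae (Eventually.of_forall fun θ => ?_)
      show Fin_T ρ f G G (cis θ + w) = Fin_T ρ f g g (cis θ + w)
      unfold Fin_T
      refine integral_congr_ae (Eventually.of_forall fun z => ?_)
      show f z * G (z + (cis θ + w)) * G (z + ρ * (cis θ + w)) =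
        f z * g (z + (cis θ + w)) * g (z + ρ * (cis θ + w))
      by_cases hz : z ∈ Fin_Q 0
      · have hz2 := Fin_norm_Q0 hz
        have hv : ‖cis θ + w‖ ≤ 2 := by
          refine (norm_add_le _ _).trans ?_
          rw [Fin_norm_cis]
          linarith
        have h6 : z + (cis θ + w) ∈ {z : ℂ | ‖z‖ < D} := by
          show ‖z + (cis θ + w)‖ < D
          have := norm_add_le z (cis θ + w)
          have := norm_nonneg ρ
          linarith
        have h7 : z + ρ * (cis θ + w) ∈ {z : ℂ | ‖z‖ < D} := by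
          show ‖z + ρ * (cis θ + w)‖ < D
          have h8 := norm_add_le z (ρ * (cis θ + w))
          rw [norm_mul] at h8
          have h9 := mul_le_mul_of_nonneg_left hv (norm_nonneg ρ)
          linarith
        rw [hg, indicator_of_mem h6, indicator_of_mem h7]
      · have h6 : f z = 0 := by rw [hf, indicator_of_notMem hz]
        rw [h6, zero_mul, zero_mul, zero_mul, zero_mul]
  have hmul : ∀ w, gauss δ w * Fin_L ρ f G G w ≤ gauss δ w * Fin_L ρ f g g w +
      8 * π ^ 2 * (gauss δ w * {w : ℂ | 1 < ‖w‖}.indicator (fun _ => (1 : ℝ)) w) := by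
    intro w
    have := mul_le_mul_of_nonneg_left (hcmp w) (Fin_gauss_nonneg δ w)
    linarith
  have hmI : MeasurableSet {w : ℂ | 1 < ‖w‖} := measurableSet_lt measurable_const measurable_norm
  have i1 : Integrable fun w => gauss δ w * Fin_L ρ f G G w :=
    Fin_gauss_mul_integrable h0 (Fin_L_measurable ρ mf hG hG) (Fin_L_nonneg ρ f0 G0 G0)
      (Fin_L_le ρ intf mf hG hG f0 G0 G1 G0 G1)
  have i2 : Integrable fun w => gauss δ w * Fin_L ρ f g g w :=
    Fin_gauss_mul_integrable h0 (Fin_L_measurable ρ mf mg mg) (Fin_L_nonneg ρ f0 g0 g0)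
      (Fin_L_le ρ intf mf mg mg f0 g0 g1 g0 g1)
  have i3 : Integrable fun w => gauss δ w * {w : ℂ | 1 < ‖w‖}.indicator (fun _ => (1 : ℝ)) w :=
    Fin_gauss_mul_integrable (C := 1) h0 (measurable_const.indicator hmI)
      (fun w => indicator_nonneg (fun _ _ => zero_le_one) w)
      (fun w => by
        rw [indicator_apply]
        split_ifs
        · exact le_rfl
        · exact zero_le_one)
  have h10 := integral_mono i1 (i2.add (i3.const_mul (8 * π ^ 2))) hmul
  have h11 : ∫ w, (gauss δ w * Fin_L ρ f g g w +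
      8 * π ^ 2 * (gauss δ w * {w : ℂ | 1 < ‖w‖}.indicator (fun _ => (1 : ℝ)) w)) =
      (∫ w, gauss δ w * Fin_L ρ f g g w) +
      8 * π ^ 2 * ∫ w, gauss δ w * {w : ℂ | 1 < ‖w‖}.indicator (fun _ => (1 : ℝ)) w := by
    rw [integral_add i2 (i3.const_mul (8 * π ^ 2)), integral_const_mul]
  have h12 := Fin_gauss_tail h0 h1
  have h13 : 8 * π ^ 2 * ∫ w, gauss δ w * {w : ℂ | 1 < ‖w‖}.indicator (fun _ => (1 : ℝ)) w ≤
      8 * π ^ 2 * (δ * Real.exp π) := mul_le_mul_of_nonneg_left h12 (by positivity)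
  have h14 : ∫ w, gauss δ w * Fin_L ρ f G G w ≤ ∫ w, (gauss δ w * Fin_L ρ f g g w +
      8 * π ^ 2 * (gauss δ w * {w : ℂ | 1 < ‖w‖}.indicator (fun _ => (1 : ℝ)) w)) := h10
  rw [h11] at h14
  linarith

end Pool.Agent.H24.Tri
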