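import Pool.Agent.H1.Tri.FinB

set_option autoImplicit false

/-! # TRI-FIN, part C: assembly in the complex plane -/

open MeasureTheory Set Complex Metric Filter Topology
open scoped Real ENNReal NNReal ComplexConjugate

namespace Pool.Agent.H24.Tri

theorem Fin_gi_re (p : ℤ × ℤ) : (gi p).re = p.1 := by
  unfold gi
  simp

theorem Fin_gi_im (p : ℤ × ℤ) : (gi p).im = p.2 := by
  unfold gi
  simp

theorem Fin_Q_shift (p : ℤ × ℤ) (z : ℂ) : z + gi p ∈ Fin_Q p ↔ z ∈ Fin_Q 0 := by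
  unfold Fin_Q
  rw [mem_setOf_eq, mem_setOf_eq, Complex.add_re, Complex.add_im, Fin_gi_re, Fin_gi_im,
    Int.floor_add_intCast, Int.floor_add_intCast]
  constructor
  · rintro ⟨h1, h2⟩
    exact ⟨by show ⌊z.re⌋ = 0; omega, by show ⌊z.im⌋ = 0; omega⟩
  · rintro ⟨h1, h2⟩
    have h1' : ⌊z.re⌋ = 0 := h1
    have h2' : ⌊z.im⌋ = 0 := h2
    exact ⟨by omega, by omega⟩

theorem Fin_T_shift (ρ : ℂ) (F : ℂ → ℝ) (p : ℤ × ℤ) (v : ℂ) :
    Fin_T ρ ((Fin_Q p).indicator F) F F v =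
      Fin_T ρ ((Fin_Q 0).indicator fun z => F (z + gi p)) (fun z => F (z + gi p))
        (fun z => F (z + gi p)) v := by
  unfold Fin_T
  rw [← integral_add_right_eq_self _ (gi p)]
  refine integral_congr_ae (Eventually.of_forall fun z => ?_)
  have h1 : (Fin_Q p).indicator F (z + gi p) =
      (Fin_Q 0).indicator (fun z => F (z + gi p)) z := by
    by_cases hz : z ∈ Fin_Q 0
    · rw [indicator_of_mem hz, indicator_of_mem ((Fin_Q_shift p z).2 hz)]
    · rw [indicator_of_notMem hz, indicator_of_notMem (fun h => hz ((Fin_Q_shift p z).1 h))]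
  show (Fin_Q p).indicator F (z + gi p) * F (z + gi p + v) * F (z + gi p + ρ * v) =
    (Fin_Q 0).indicator (fun z => F (z + gi p)) z * F (z + v + gi p) * F (z + ρ * v + gi p)
  rw [h1, add_right_comm z (gi p) v, add_right_comm z (gi p) (ρ * v)]

theorem Fin_L_shift (ρ : ℂ) (F : ℂ → ℝ) (p : ℤ × ℤ) (w : ℂ) :
    Fin_L ρ ((Fin_Q p).indicator F) F F w =
      Fin_L ρ ((Fin_Q 0).indicator fun z => F (z + gi p)) (fun z => F (z + gi p))
        (fun z => F (z + gi p)) w := by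
  unfold Fin_L
  refine integral_congr_ae (Eventually.of_forall fun θ => ?_)
  exact Fin_T_shift ρ F p _

/-- The finite set of squares. -/
noncomputable def Fin_S (K : ℤ) : Finset (ℤ × ℤ) := Finset.Icc (-K) K ×ˢ Finset.Icc (-K) K

theorem Fin_decomp {F : ℂ → ℝ} {M : ℝ} (hF : ∀ z, M < ‖z‖ → F z = 0) (z : ℂ) :
    F z = ∑ p ∈ Fin_S ⌈M⌉, (Fin_Q p).indicator F z := by
  classical
  rw [Finset.sum_eq_single (⌊z.re⌋, ⌊z.im⌋)]
  · rw [indicator_of_mem]
    exact ⟨rfl, rfl⟩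
  · intro p _ hp
    apply indicator_of_notMem
    rintro ⟨h1, h2⟩
    exact hp (Prod.ext h1.symm h2.symm)
  · intro h
    by_cases hz : M < ‖z‖
    · rw [indicator_of_mem (by exact ⟨rfl, rfl⟩)]
      exact hF z hz
    · exfalso
      apply h
      rw [not_lt] at hz
      have h1 := abs_le.1 ((Complex.abs_re_le_norm z).trans hz)
      have h2 := abs_le.1 ((Complex.abs_im_le_norm z).trans hz)
      have h3 := Int.le_ceil M
      unfold Fin_S
      rw [Finset.mem_product, Finset.mem_Icc, Finset.mem_Icc]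
      refine ⟨⟨?_, ?_⟩, ⟨?_, ?_⟩⟩
      · show -⌈M⌉ ≤ ⌊z.re⌋
        rw [Int.le_floor]
        push_cast
        linarith [h1.1]
      · show ⌊z.re⌋ ≤ ⌈M⌉
        rw [← Int.cast_le (R := ℝ)]
        linarith [Int.floor_le z.re, h1.2]
      · show -⌈M⌉ ≤ ⌊z.im⌋
        rw [Int.le_floor]
        push_cast
        linarith [h2.1]
      · show ⌊z.im⌋ ≤ ⌈M⌉
        rw [← Int.cast_le (R := ℝ)]
        linarith [Int.floor_le z.im, h2.2]

theorem Fin_card {M : ℝ} (hM : 1 ≤ M) : ((Fin_S ⌈M⌉).card : ℝ) ≤ 25 * M ^ 2 := by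
  unfold Fin_S
  rw [Finset.card_product, Int.card_Icc]
  have h0 : 0 ≤ ⌈M⌉ := Int.ceil_nonneg (by linarith)
  have h1 : ((⌈M⌉ + 1 - -⌈M⌉).toNat : ℝ) = 2 * (⌈M⌉ : ℝ) + 1 := by
    have : ((⌈M⌉ + 1 - -⌈M⌉).toNat : ℤ) = 2 * ⌈M⌉ + 1 := by
      rw [Int.toNat_of_nonneg (by omega)]
      ring
    exact_mod_cast this
  have h2 := Int.ceil_lt_add_one M
  have h3 : (0 : ℝ) ≤ ⌈M⌉ := by exact_mod_cast h0
  push_cast
  rw [h1]
  have h4 : 2 * (⌈M⌉ : ℝ) + 1 ≤ 5 * M := by linarith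
  nlinarith

theorem Fin_integrable_of_bdd {F : ℂ → ℝ} {M : ℝ} (hm : Measurable F) (F0 : ∀ z, 0 ≤ F z)
    (F1 : ∀ z, F z ≤ 1) (hF : ∀ z, M < ‖z‖ → F z = 0) : Integrable F := by
  have hone : Integrable ((closedBall (0 : ℂ) M).indicator (fun _ => (1 : ℝ))) :=
    (integrable_indicator_iff measurableSet_closedBall).2
      (integrableOn_const measure_closedBall_lt_top.ne)
  refine hone.mono hm.aestronglyMeasurable (Eventually.of_forall fun z => ?_)
  rw [Real.norm_of_nonneg (F0 z),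
    Real.norm_of_nonneg (indicator_nonneg (fun _ _ => zero_le_one) z)]
  by_cases hz : z ∈ closedBall (0 : ℂ) M
  · rw [indicator_of_mem hz]
    exact F1 z
  · rw [indicator_of_notMem hz]
    rw [mem_closedBall, dist_zero_right, not_le] at hz
    exact (hF z hz).le

theorem Fin_T_theta_integrable (ρ : ℂ) {f₁ f₂ f₃ : ℂ → ℝ} (h₁ : Integrable f₁) (m₁ : Measurable f₁)
    (h₂ : Measurable f₂) (h₃ : Measurable f₃) (p₁ : ∀ z, 0 ≤ f₁ z)
    (p₂ : ∀ z, 0 ≤ f₂ z) (q₂ : ∀ z, f₂ z ≤ 1) (p₃ : ∀ z, 0 ≤ f₃ z) (q₃ : ∀ z, f₃ z ≤ 1) (w : ℂ) :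
    Integrable (fun θ => Fin_T ρ f₁ f₂ f₃ (cis θ + w)) (volume.restrict (Ioc 0 (2 * π))) := by
  refine (integrable_const (∫ z, f₁ z)).mono ?_ (Eventually.of_forall fun θ => ?_)
  · exact ((Fin_T_measurable ρ m₁ h₂ h₃).comp
      (Fin_cis_measurable.add_const w)).aestronglyMeasurable
  · rw [Real.norm_of_nonneg (Fin_T_nonneg ρ p₁ p₂ p₃ _), Real.norm_of_nonneg (integral_nonneg p₁)]
    exact Fin_T_le ρ h₁ m₁ h₂ h₃ p₁ p₂ q₂ p₃ q₃ _

/-- The global estimate: sum over all squares. -/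
theorem Fin_global (ρ : ℂ) {δ ε : ℝ} (h0 : 0 < δ) (h1 : δ ≤ 1) (hS : Fin_Sm ρ δ (4 + 2 * ‖ρ‖) ε)
    {F : ℂ → ℝ} {M : ℝ} (hM : 1 ≤ M) (hF : Measurable F) (F0 : ∀ z, 0 ≤ F z) (F1 : ∀ z, F z ≤ 1)
    (hz : ∀ z, M < ‖z‖ → F z = 0)
    (hbad : ∀ z θ, F z * F (z + cis θ) * F (z + ρ * cis θ) = 0) :
    ∫ w, gauss δ w * Fin_L ρ F F F w ≤ 25 * M ^ 2 * (ε + 8 * π ^ 2 * (δ * Real.exp π)) := by
  classical
  have intF : Integrable F := Fin_integrable_of_bdd hF F0 F1 hz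
  have mI : ∀ p, Measurable ((Fin_Q p).indicator F) := fun p => hF.indicator (Fin_Q_measurable p)
  have I0 : ∀ p z, 0 ≤ (Fin_Q p).indicator F z := fun p z => indicator_nonneg (fun z _ => F0 z) z
  have intI : ∀ p, Integrable ((Fin_Q p).indicator F) := fun p =>
    intF.indicator (Fin_Q_measurable p)
  -- decomposition of `T`
  have hT : ∀ v, Fin_T ρ F F F v = ∑ p ∈ Fin_S ⌈M⌉, Fin_T ρ ((Fin_Q p).indicator F) F F v := by
    intro v
    unfold Fin_T
    rw [← integral_finsetSum]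
    · refine integral_congr_ae (Eventually.of_forall fun z => ?_)
      show F z * F (z + v) * F (z + ρ * v) =
        ∑ p ∈ Fin_S ⌈M⌉, (Fin_Q p).indicator F z * F (z + v) * F (z + ρ * v)
      rw [← Finset.sum_mul, ← Finset.sum_mul, ← Fin_decomp hz z]
    · intro p _
      exact Fin_T_integrable ρ (intI p) (mI p) hF hF (I0 p) F0 F1 F0 F1 v
  have hL : ∀ w, Fin_L ρ F F F w = ∑ p ∈ Fin_S ⌈M⌉, Fin_L ρ ((Fin_Q p).indicator F) F F w := by
    intro w
    unfold Fin_L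
    rw [← integral_finsetSum]
    · refine integral_congr_ae (Eventually.of_forall fun θ => ?_)
      exact hT _
    · intro p _
      exact Fin_T_theta_integrable ρ (intI p) (mI p) hF hF (I0 p) F0 F1 F0 F1 w
  have hG : ∫ w, gauss δ w * Fin_L ρ F F F w =
      ∑ p ∈ Fin_S ⌈M⌉, ∫ w, gauss δ w * Fin_L ρ ((Fin_Q p).indicator F) F F w := by
    rw [← integral_finsetSum]
    · refine integral_congr_ae (Eventually.of_forall fun w => ?_)
      show gauss δ w * Fin_L ρ F F F w =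
        ∑ p ∈ Fin_S ⌈M⌉, gauss δ w * Fin_L ρ ((Fin_Q p).indicator F) F F w
      rw [← Finset.mul_sum, ← hL w]
    · intro p _
      exact Fin_gauss_mul_integrable h0 (Fin_L_measurable ρ (mI p) hF hF)
        (Fin_L_nonneg ρ (I0 p) F0 F0) (Fin_L_le ρ (intI p) (mI p) hF hF (I0 p) F0 F1 F0 F1)
  have hp : ∀ p, ∫ w, gauss δ w * Fin_L ρ ((Fin_Q p).indicator F) F F w ≤
      ε + 8 * π ^ 2 * (δ * Real.exp π) := by
    intro p
    have h2 := Fin_loc1 ρ h0 h1 hS (G := fun z => F (z + gi p))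
      (hF.comp (measurable_id.add_const _)) (fun z => F0 _) (fun z => F1 _)
      (fun z θ => by
        have := hbad (z + gi p) θ
        rwa [add_right_comm z (gi p) (cis θ), add_right_comm z (gi p) (ρ * cis θ)] at this)
    refine le_of_eq_of_le ?_ h2
    refine integral_congr_ae (Eventually.of_forall fun w => ?_)
    show gauss δ w * Fin_L ρ ((Fin_Q p).indicator F) F F w = _
    rw [Fin_L_shift]
  have hc : 0 ≤ ε + 8 * π ^ 2 * (δ * Real.exp π) := by
    refine le_trans ?_ (hp 0)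
    exact integral_nonneg fun w =>
      mul_nonneg (Fin_gauss_nonneg _ _) (Fin_L_nonneg ρ (I0 0) F0 F0 w)
  rw [hG]
  refine (Finset.sum_le_card_nsmul _ _ _ fun p _ => hp p).trans ?_
  rw [nsmul_eq_mul]
  exact mul_le_mul_of_nonneg_right (Fin_card hM) hc

/-- `N² Φ(σ_d * g_s)` -/
noncomputable def Fin_PhiC (ρ : ℂ) (f : ℂ → ℝ) (d s : ℝ) : ℝ :=
  (2 * π)⁻¹ * ∫ θ in Ioc 0 (2 * π), ∫ w, gauss s w * Fin_T ρ f f f ((d : ℂ) * cis θ + w)

/-- `N² Φ(g_s)` -/
noncomputable def Fin_PhiG (ρ : ℂ) (f : ℂ → ℝ) (s : ℝ) : ℝ := ∫ w, gauss s w * Fin_T ρ f f f w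

theorem Fin_PhiC_scale (ρ : ℂ) {f : ℂ → ℝ} {δ d N : ℝ} (h0 : 0 < δ) (hd : 0 < d)
    (hf : Measurable f) (f0 : ∀ z, 0 ≤ f z) (f1 : ∀ z, f z ≤ 1) (hz : ∀ z, N < ‖z‖ → f z = 0) :
    Fin_PhiC ρ f d (δ * d) = d ^ 2 * ((2 * π)⁻¹ * ∫ w, gauss δ w *
      Fin_L ρ (fun z => f (d • z)) (fun z => f (d • z)) (fun z => f (d • z)) w) := by
  set F : ℂ → ℝ := fun z => f (d • z) with hFdef
  have mF : Measurable F := hf.comp (measurable_const_smul d)
  have F0 : ∀ z, 0 ≤ F z := fun z => f0 _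
  have F1 : ∀ z, F z ≤ 1 := fun z => f1 _
  have FN : ∀ z, N / d < ‖z‖ → F z = 0 := by
    intro z h
    apply hz
    rw [norm_smul, Real.norm_of_nonneg hd.le]
    rw [div_lt_iff₀ hd] at h
    linarith
  have intF : Integrable F := Fin_integrable_of_bdd mF F0 F1 FN
  have h1 : ∀ θ : ℝ, ∫ w, gauss (δ * d) w * Fin_T ρ f f f ((d : ℂ) * cis θ + w) =
      d ^ 2 * ∫ w, gauss δ w * Fin_T ρ F F F (cis θ + w) := by
    intro θ
    have h := Measure.integral_comp_smul_of_nonneg (volume : Measure ℂ)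
      (fun w => gauss (δ * d) w * Fin_T ρ f f f ((d : ℂ) * cis θ + w)) d (hR := hd.le)
    have h2 : ∫ w : ℂ, gauss (δ * d) (d • w) * Fin_T ρ f f f ((d : ℂ) * cis θ + d • w) =
        ∫ w : ℂ, gauss δ w * Fin_T ρ F F F (cis θ + w) := by
      refine integral_congr_ae (Eventually.of_forall fun w => ?_)
      show gauss (δ * d) (d • w) * Fin_T ρ f f f ((d : ℂ) * cis θ + d • w) = _
      have h3 : (d : ℂ) * cis θ + d • w = d • (cis θ + w) := by
        rw [smul_add, Complex.real_smul (z := cis θ)]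
      rw [h3, Fin_T_scale ρ f hd, Fin_gauss_scale hd]
      have hd2 : d ^ 2 ≠ 0 := by positivity
      field_simp
      rfl
    rw [h2, Complex.finrank_real_complex, smul_eq_mul] at h
    rw [h, ← mul_assoc, mul_inv_cancel₀ (by positivity), one_mul]
  unfold Fin_PhiC
  simp_rw [h1]
  rw [integral_const_mul]
  have h4 : ∫ θ in Ioc 0 (2 * π), ∫ w, gauss δ w * Fin_T ρ F F F (cis θ + w) =
      ∫ w, gauss δ w * Fin_L ρ F F F w := by
    have hint : Integrable (Function.uncurry fun (θ : ℝ) (w : ℂ) =>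
        gauss δ w * Fin_T ρ F F F (cis θ + w))
        ((volume.restrict (Ioc 0 (2 * π))).prod volume) := by
      have h5 : Integrable (fun p : ℝ × ℂ => gauss δ p.2 * ∫ z, F z)
          ((volume.restrict (Ioc 0 (2 * π))).prod volume) :=
        ((Fin_gauss_integrable h0).comp_snd (volume.restrict (Ioc 0 (2 * π)))).mul_const _
      refine h5.mono ?_ (Eventually.of_forall fun p => ?_)
      · apply Measurable.aestronglyMeasurable
        exact ((Fin_gauss_measurable δ).comp measurable_snd).mul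
          ((Fin_T_measurable ρ mF mF mF).comp
            ((Fin_cis_measurable.comp measurable_fst).add measurable_snd))
      · show ‖gauss δ p.2 * Fin_T ρ F F F (cis p.1 + p.2)‖ ≤ ‖gauss δ p.2 * ∫ z, F z‖
        rw [Real.norm_of_nonneg (mul_nonneg (Fin_gauss_nonneg _ _) (Fin_T_nonneg ρ F0 F0 F0 _)),
          Real.norm_of_nonneg (mul_nonneg (Fin_gauss_nonneg _ _) (integral_nonneg F0))]
        exact mul_le_mul_of_nonneg_left (Fin_T_le ρ intF mF mF mF F0 F0 F1 F0 F1 _)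
          (Fin_gauss_nonneg _ _)
    rw [integral_integral_swap hint]
    refine integral_congr_ae (Eventually.of_forall fun w => ?_)
    show ∫ θ in Ioc 0 (2 * π), gauss δ w * Fin_T ρ F F F (cis θ + w) = _
    rw [integral_const_mul]
    rfl
  rw [h4]
  ring

end Pool.Agent.H24.Tri
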