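import Pool.Agent.H1.Tri.FinC

set_option autoImplicit false

/-! # TRI-FIN, part D: the main theorem in the complex plane -/

open MeasureTheory Set Complex Metric Filter Topology
open scoped Real ENNReal NNReal ComplexConjugate

namespace Pool.Agent.H24.Tri

/-- The Roth type lower bound (statement of `rl`, for one density). -/
def Fin_Rl (ρ : ℂ) (c c₂ κ : ℝ) : Prop :=
  ∀ N s : ℝ, 0 < N → 0 < s → s ≤ κ * N → ∀ E : Set ℂ, MeasurableSet E →
    E ⊆ closedBall 0 N → ENNReal.ofReal (c * N ^ 2) ≤ volume E →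
    c₂ * s ^ 2 * N ^ 2 ≤ ∫ w in closedBall (0 : ℂ) s, ∫ z,
      E.indicator (fun _ => (1 : ℝ)) z * E.indicator (fun _ => (1 : ℝ)) (z + w) *
        E.indicator (fun _ => (1 : ℝ)) (z + ρ * w)

/-- The comparison lemma for lacunary scales (statement of `cl`, for one `δ`, `ε`). -/
def Fin_Cl (ρ : ℂ) (δ ε A : ℝ) (J : ℕ) : Prop :=
  ∀ d : ℕ → ℝ, (∀ k, k < J → 0 < d k) →
    (∀ k, k + 1 < J → A * d k ≤ d (k + 1)) → ∀ N : ℝ, 0 < N → ∀ f : ℂ → ℝ, Measurable f →
    (∀ z, 0 ≤ f z) → (∀ z, f z ≤ 1) → (∀ z, N < ‖z‖ → f z = 0) →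
    ∃ k, k < J ∧ |Fin_PhiC ρ f (d k) (δ * d k) - Fin_PhiG ρ f (δ * d k)| ≤ ε * N ^ 2

theorem Fin_PhiG_lower (ρ : ℂ) {f : ℂ → ℝ} {s N a : ℝ} (hs : 0 < s)
    (hf : Measurable f) (f0 : ∀ z, 0 ≤ f z) (f1 : ∀ z, f z ≤ 1) (hz : ∀ z, N < ‖z‖ → f z = 0)
    (h : a ≤ ∫ w in closedBall (0 : ℂ) s, Fin_T ρ f f f w) :
    (s ^ 2)⁻¹ * Real.exp (-π) * a ≤ Fin_PhiG ρ f s := by
  have intf : Integrable f := Fin_integrable_of_bdd hf f0 f1 hz
  have hc : 0 ≤ (s ^ 2)⁻¹ * Real.exp (-π) := by positivity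
  refine (mul_le_mul_of_nonneg_left h hc).trans ?_
  rw [← integral_const_mul]
  have hT : ∀ w, 0 ≤ Fin_T ρ f f f w := Fin_T_nonneg ρ f0 f0 f0
  have i1 : Integrable fun w => gauss s w * Fin_T ρ f f f w :=
    Fin_gauss_mul_integrable hs (Fin_T_measurable ρ hf hf hf) hT
      (Fin_T_le ρ intf hf hf hf f0 f0 f1 f0 f1)
  have h2 : ∫ w in closedBall (0 : ℂ) s, (s ^ 2)⁻¹ * Real.exp (-π) * Fin_T ρ f f f w ≤
      ∫ w in closedBall (0 : ℂ) s, gauss s w * Fin_T ρ f f f w := by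
    apply integral_mono_of_nonneg
    · exact Eventually.of_forall fun w => mul_nonneg hc (hT w)
    · exact i1.integrableOn
    · refine (ae_restrict_iff' measurableSet_closedBall).2 (Eventually.of_forall fun w hw => ?_)
      rw [mem_closedBall, dist_zero_right] at hw
      exact mul_le_mul_of_nonneg_right (Fin_gauss_lower hs hw) (hT w)
  refine h2.trans ?_
  unfold Fin_PhiG
  exact setIntegral_le_integral i1 (Eventually.of_forall fun w =>
    mul_nonneg (Fin_gauss_nonneg _ _) (hT w))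

/-- a sequence of scales -/
noncomputable def Fin_seq (b : ℝ → ℝ) (A : ℝ) : ℕ → ℝ
  | 0 => b 1
  | k + 1 => b (A * Fin_seq b A k)

theorem Fin_main (ρ : ℂ)
    (hsm : ∀ D ε : ℝ, 0 < D → 0 < ε → ∃ s₀ : ℝ, 0 < s₀ ∧ ∀ s : ℝ, 0 < s → s ≤ s₀ →
      Fin_Sm ρ s D ε)
    (hrl : ∀ c : ℝ, 0 < c → ∃ c₂ κ : ℝ, 0 < c₂ ∧ 0 < κ ∧ Fin_Rl ρ c c₂ κ)
    (hcl : ∀ δ ε : ℝ, 0 < δ → δ ≤ 1 / 2 → 0 < ε → ∃ (A : ℝ) (J : ℕ), 1 ≤ A ∧ Fin_Cl ρ δ ε A J)
    (E : Set ℂ) (hE : MeasurableSet E)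
    (hd : ∃ c : ℝ, 0 < c ∧ ∀ R : ℝ, ∃ r : ℝ, R ≤ r ∧
      ENNReal.ofReal (c * r ^ 2) ≤ volume (E ∩ closedBall 0 r)) :
    ∃ d₀ : ℝ, 0 < d₀ ∧ ∀ d : ℝ, d₀ ≤ d → ∃ (z : ℂ) (θ : ℝ),
      z ∈ E ∧ z + (d : ℂ) * cis θ ∈ E ∧ z + ρ * ((d : ℂ) * cis θ) ∈ E := by
  classical
  by_contra hcon
  push Not at hcon
  have hπ := Real.pi_pos
  obtain ⟨c, hc, hdens⟩ := hd
  obtain ⟨c₂, κ, hc₂, hκ, hRl⟩ := hrl c hc
  set η : ℝ := c₂ * Real.exp (-π) / 4 with hη
  have η0 : 0 < η := by positivity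
  have hρ := norm_nonneg ρ
  obtain ⟨s₀, hs₀, hSm⟩ := hsm (4 + 2 * ‖ρ‖) (η / 25) (by positivity) (by positivity)
  set τ : ℝ := η / (25 * (8 * π ^ 2 * Real.exp π)) with hτ
  have τ0 : 0 < τ := by positivity
  set δ : ℝ := min (min s₀ (1 / 2)) τ with hδ
  have δ0 : 0 < δ := lt_min (lt_min hs₀ (by norm_num)) τ0
  have δ1 : δ ≤ 1 / 2 := (min_le_left _ _).trans (min_le_right _ _)
  have δ2 : δ ≤ s₀ := (min_le_left _ _).trans (min_le_left _ _)
  have δ3 : δ ≤ τ := min_le_right _ _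
  obtain ⟨A, J, hA, hCl⟩ := hcl δ η δ0 δ1 η0
  -- the bad scales
  have hbad : ∀ x : ℝ, ∃ d : ℝ, max x 1 ≤ d ∧ ∀ (z : ℂ) (θ : ℝ), z ∈ E →
      z + (d : ℂ) * cis θ ∈ E → z + ρ * ((d : ℂ) * cis θ) ∉ E :=
    fun x => hcon (max x 1) (lt_of_lt_of_le one_pos (le_max_right _ _))
  choose b hb1 hb2 using hbad
  obtain ⟨d, d0, dS⟩ : ∃ d : ℕ → ℝ, d 0 = b 1 ∧ ∀ k, d (k + 1) = b (A * d k) :=
    ⟨Fin_seq b A, rfl, fun _ => rfl⟩
  have d1 : ∀ k, 1 ≤ d k := by
    intro k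
    cases k with
    | zero => rw [d0]; exact (le_max_right _ _).trans (hb1 1)
    | succ k => rw [dS]; exact (le_max_right _ _).trans (hb1 (A * d k))
  have dbad : ∀ k, ∀ (z : ℂ) (θ : ℝ), z ∈ E →
      z + (d k : ℂ) * cis θ ∈ E → z + ρ * ((d k : ℂ) * cis θ) ∉ E := by
    intro k
    cases k with
    | zero => rw [d0]; exact hb2 1
    | succ k => rw [dS]; exact hb2 (A * d k)
  have dA : ∀ k, A * d k ≤ d (k + 1) := fun k => by
    rw [dS]
    exact (le_max_left _ _).trans (hb1 (A * d k))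
  -- the large disc
  set R : ℝ := (∑ k ∈ Finset.range J, d k) * (1 + δ / κ) + 1 with hR
  obtain ⟨N, hN, hvol⟩ := hdens R
  have hsum0 : 0 ≤ ∑ k ∈ Finset.range J, d k :=
    Finset.sum_nonneg fun k _ => zero_le_one.trans (d1 k)
  have hR1 : 1 ≤ R := by
    have : 0 ≤ (∑ k ∈ Finset.range J, d k) * (1 + δ / κ) := mul_nonneg hsum0 (by positivity)
    linarith
  have N0 : 0 < N := by linarith
  have hdN : ∀ k, k < J → d k ≤ N ∧ δ * d k ≤ κ * N := by
    intro k hk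
    have h1 : d k ≤ ∑ k ∈ Finset.range J, d k :=
      Finset.single_le_sum (f := d) (fun k _ => zero_le_one.trans (d1 k)) (Finset.mem_range.2 hk)
    have h2 : d k * (1 + δ / κ) ≤ N := by
      have h3 : d k * (1 + δ / κ) ≤ (∑ k ∈ Finset.range J, d k) * (1 + δ / κ) :=
        mul_le_mul_of_nonneg_right h1 (by positivity)
      linarith
    have h4 : 0 < d k := lt_of_lt_of_le one_pos (d1 k)
    have h5 : 0 ≤ d k * (δ / κ) := by positivity
    refine ⟨by nlinarith, ?_⟩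
    have h6 : d k * (δ / κ) ≤ N := by nlinarith
    have h7 : δ * d k = κ * (d k * (δ / κ)) := by
      field_simp
    rw [h7]
    exact mul_le_mul_of_nonneg_left h6 hκ.le
  set E' : Set ℂ := E ∩ closedBall 0 N with hE'
  have mE' : MeasurableSet E' := hE.inter measurableSet_closedBall
  set f : ℂ → ℝ := E'.indicator (fun _ => (1 : ℝ)) with hf
  have mf : Measurable f := measurable_const.indicator mE'
  have f0 : ∀ z, 0 ≤ f z := fun z => indicator_nonneg (fun _ _ => zero_le_one) z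
  have f1 : ∀ z, f z ≤ 1 := fun z => by
    rw [hf, indicator_apply]
    split_ifs
    · exact le_rfl
    · exact zero_le_one
  have fN : ∀ z, N < ‖z‖ → f z = 0 := fun z hz => by
    rw [hf, indicator_of_notMem]
    rintro ⟨-, h⟩
    rw [mem_closedBall, dist_zero_right] at h
    exact absurd hz (not_lt.2 h)
  have fE : ∀ z, z ∉ E → f z = 0 := fun z hz => by
    rw [hf, indicator_of_notMem]
    exact fun h => hz h.1
  obtain ⟨k, hk, hcmp⟩ := hCl d (fun k _ => lt_of_lt_of_le one_pos (d1 k)) (fun k _ => dA k) N N0 f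
    mf f0 f1 fN
  obtain ⟨hkN, hkκ⟩ := hdN k hk
  have dk0 : 0 < d k := lt_of_lt_of_le one_pos (d1 k)
  have s0 : 0 < δ * d k := mul_pos δ0 dk0
  -- lower bound
  have hlow : 4 * η * N ^ 2 ≤ Fin_PhiG ρ f (δ * d k) := by
    have h1 := hRl N (δ * d k) N0 s0 hkκ E' mE' inter_subset_right hvol
    have h2 := Fin_PhiG_lower ρ s0 mf f0 f1 fN h1
    refine le_trans (le_of_eq ?_) h2
    rw [hη]
    have : (δ * d k) ≠ 0 := s0.ne'
    field_simp
  -- upper bound
  have hup : Fin_PhiC ρ f (d k) (δ * d k) ≤ 2 * η * N ^ 2 := by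
    rw [Fin_PhiC_scale ρ δ0 dk0 mf f0 f1 fN]
    have hM : 1 ≤ N / d k := by
      rw [one_le_div dk0]
      exact hkN
    have h1 := Fin_global ρ δ0 (δ1.trans (by norm_num)) (hSm δ δ0 δ2) (F := fun z => f (d k • z))
      (M := N / d k) hM (mf.comp (measurable_const_smul (d k))) (fun z => f0 _) (fun z => f1 _)
      (fun z hz => by
        apply fN
        rw [norm_smul, Real.norm_of_nonneg dk0.le]
        rw [div_lt_iff₀ dk0] at hz
        linarith)
      (fun z θ => by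
        by_cases h1 : d k • z ∈ E
        · by_cases h2 : d k • z + (d k : ℂ) * cis θ ∈ E
          · have h3 := dbad k _ _ h1 h2
            have h4 : d k • (z + ρ * cis θ) = d k • z + ρ * ((d k : ℂ) * cis θ) := by
              rw [smul_add, Complex.real_smul (z := ρ * cis θ)]
              ring
            rw [h4, fE _ h3, mul_zero]
          · have h4 : d k • (z + cis θ) = d k • z + (d k : ℂ) * cis θ := by
              rw [smul_add, Complex.real_smul (z := cis θ)]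
            rw [h4, fE _ h2, mul_zero, zero_mul]
        · rw [fE _ h1, zero_mul, zero_mul])
    have h2 : η / 25 + 8 * π ^ 2 * (δ * Real.exp π) ≤ 2 * η / 25 := by
      have h3 : 8 * π ^ 2 * (δ * Real.exp π) ≤ 8 * π ^ 2 * (τ * Real.exp π) := by
        gcongr
      have h4 : 8 * π ^ 2 * (τ * Real.exp π) = η / 25 := by
        rw [hτ]
        have := Real.exp_pos π
        field_simp
      linarith
    have h5 : ∫ w, gauss δ w * Fin_L ρ (fun z => f (d k • z)) (fun z => f (d k • z))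
        (fun z => f (d k • z)) w ≤ 25 * (N / d k) ^ 2 * (2 * η / 25) :=
      h1.trans (mul_le_mul_of_nonneg_left h2 (by positivity))
    have h6 : (2 * π)⁻¹ ≤ 1 := by
      apply inv_le_one_of_one_le₀
      have := Real.pi_gt_three
      linarith
    have h7 : 0 ≤ ∫ w, gauss δ w * Fin_L ρ (fun z => f (d k • z)) (fun z => f (d k • z))
        (fun z => f (d k • z)) w := integral_nonneg fun w =>
      mul_nonneg (Fin_gauss_nonneg _ _)
        (Fin_L_nonneg ρ (fun z => f0 _) (fun z => f0 _) (fun z => f0 _) w)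
    calc _ ≤ d k ^ 2 * (1 * (25 * (N / d k) ^ 2 * (2 * η / 25))) := by
          apply mul_le_mul_of_nonneg_left _ (by positivity)
          exact mul_le_mul h6 h5 h7 zero_le_one
      _ = 2 * η * N ^ 2 := by
          field_simp
  have h8 := (abs_le.1 hcmp).1
  have h9 : 0 < η * N ^ 2 := by positivity
  nlinarith

end Pool.Agent.H24.Tri
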