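import Pool.Agent.H1.Tri.FinD

set_option autoImplicit false

/-! # TRI-FIN, part E: from the complex plane to the Euclidean plane (Q1 and Q2) -/

open MeasureTheory Set Complex Metric Filter Topology
open scoped Real ENNReal NNReal ComplexConjugate

namespace Pool.Agent.H24.Tri

/-- What is used of the smoothing theorem, the Roth type bound and the comparison lemma. -/
def Fin_Hyps : Prop := ∀ ρ : ℂ, ρ.im ≠ 0 → ρ.re ≠ 0 → ρ.re ≠ 1 →
  (∀ D ε : ℝ, 0 < D → 0 < ε → ∃ s₀ : ℝ, 0 < s₀ ∧ ∀ s : ℝ, 0 < s → s ≤ s₀ → Fin_Sm ρ s D ε) ∧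
  (∀ c : ℝ, 0 < c → ∃ c₂ κ : ℝ, 0 < c₂ ∧ 0 < κ ∧ Fin_Rl ρ c c₂ κ) ∧
  (∀ δ ε : ℝ, 0 < δ → δ ≤ 1 / 2 → 0 < ε → ∃ (A : ℝ) (J : ℕ), 1 ≤ A ∧ Fin_Cl ρ δ ε A J)

/-- the standard isometry -/
noncomputable def Fin_e : ℂ ≃ₗᵢ[ℝ] EuclideanSpace ℝ (Fin 2) := Complex.orthonormalBasisOneI.repr

theorem Fin_plane (H : Fin_Hyps) {ρ : ℂ} (hi : ρ.im ≠ 0) (h0 : ρ.re ≠ 0) (h1 : ρ.re ≠ 1)
    (E : Set (EuclideanSpace ℝ (Fin 2))) (hE : MeasurableSet E)
    (hd : ∃ c : ℝ, 0 < c ∧ ∀ R : ℝ, ∃ r : ℝ, R ≤ r ∧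
      ENNReal.ofReal (c * r ^ 2) ≤
        volume (E ∩ Metric.closedBall (0 : EuclideanSpace ℝ (Fin 2)) r)) :
    ∃ d₀ : ℝ, 0 < d₀ ∧ ∀ d : ℝ, d₀ ≤ d → ∃ (z : ℂ) (θ : ℝ),
      Fin_e z ∈ E ∧ Fin_e (z + (d : ℂ) * cis θ) ∈ E ∧
        Fin_e (z + ρ * ((d : ℂ) * cis θ)) ∈ E := by
  obtain ⟨hsm, hrl, hcl⟩ := H ρ hi h0 h1
  have hmp : MeasurePreserving (Fin_e : ℂ → EuclideanSpace ℝ (Fin 2)) volume volume :=
    Fin_e.measurePreserving
  refine Fin_main ρ hsm hrl hcl (Fin_e ⁻¹' E) (hmp.measurable hE) ?_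
  obtain ⟨c, hc, hdens⟩ := hd
  refine ⟨c, hc, fun R => ?_⟩
  obtain ⟨r, hr, hv⟩ := hdens R
  refine ⟨r, hr, hv.trans (le_of_eq ?_)⟩
  rw [← hmp.measure_preimage (hE.inter measurableSet_closedBall).nullMeasurableSet]
  congr 1
  ext z
  simp only [mem_preimage, mem_inter_iff, mem_closedBall, dist_zero_right,
    LinearIsometryEquiv.norm_map]

/-- Q1 -/
theorem Fin_Q1 (H : Fin_Hyps) :
    ∀ E : Set (EuclideanSpace ℝ (Fin 2)), MeasurableSet E →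
      (∃ c : ℝ, 0 < c ∧ ∀ R : ℝ, ∃ r : ℝ, R ≤ r ∧
        ENNReal.ofReal (c * r ^ 2) ≤
          volume (E ∩ Metric.closedBall (0 : EuclideanSpace ℝ (Fin 2)) r)) →
      ∃ d₀ : ℝ, 0 < d₀ ∧ ∀ d : ℝ, d₀ ≤ d →
        ∃ x ∈ E, ∃ y ∈ E, ∃ z ∈ E,
          dist x y = d ∧ dist y z = d ∧ dist x z = d := by
  intro E hE hd
  have h3 : Real.sqrt 3 * Real.sqrt 3 = 3 := Real.mul_self_sqrt (by norm_num)
  have hs : Real.sqrt 3 ≠ 0 := by
    intro h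
    rw [h] at h3
    norm_num at h3
  obtain ⟨d₀, hd₀, hmain⟩ := Fin_plane H (ρ := ⟨1 / 2, Real.sqrt 3 / 2⟩)
    (by show Real.sqrt 3 / 2 ≠ 0; exact div_ne_zero hs (by norm_num))
    (by show (1 / 2 : ℝ) ≠ 0; norm_num) (by show (1 / 2 : ℝ) ≠ 1; norm_num) E hE hd
  refine ⟨d₀, hd₀, fun d hdd => ?_⟩
  obtain ⟨z, θ, h1, h2, h4⟩ := hmain d hdd
  have hd0 : 0 < d := lt_of_lt_of_le hd₀ hdd
  have hn : ‖(d : ℂ) * cis θ‖ = d := by
    rw [norm_mul, Fin_norm_cis, mul_one, Complex.norm_real, Real.norm_of_nonneg hd0.le]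
  have hρ : ‖(⟨1 / 2, Real.sqrt 3 / 2⟩ : ℂ)‖ = 1 := by
    rw [Complex.norm_def, Complex.normSq_mk, Real.sqrt_eq_one]
    nlinarith
  have hρ1 : ‖(⟨1 / 2, Real.sqrt 3 / 2⟩ : ℂ) - 1‖ = 1 := by
    rw [Complex.norm_def, Complex.normSq_apply, Real.sqrt_eq_one]
    rw [Complex.sub_re, Complex.sub_im, Complex.one_re, Complex.one_im]
    show (1 / 2 - 1 : ℝ) * (1 / 2 - 1) + (Real.sqrt 3 / 2 - 0) * (Real.sqrt 3 / 2 - 0) = 1
    nlinarith
  refine ⟨_, h1, _, h2, _, h4, ?_, ?_, ?_⟩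
  · rw [LinearIsometryEquiv.dist_map, dist_eq_norm]
    rw [show z - (z + (d : ℂ) * cis θ) = -((d : ℂ) * cis θ) by ring, norm_neg, hn]
  · rw [LinearIsometryEquiv.dist_map, dist_eq_norm]
    rw [show z + (d : ℂ) * cis θ - (z + (⟨1 / 2, Real.sqrt 3 / 2⟩ : ℂ) * ((d : ℂ) * cis θ)) =
      -(((⟨1 / 2, Real.sqrt 3 / 2⟩ : ℂ) - 1) * ((d : ℂ) * cis θ)) by ring, norm_neg, norm_mul,
      hρ1, hn, one_mul]
  · rw [LinearIsometryEquiv.dist_map, dist_eq_norm]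
    rw [show z - (z + (⟨1 / 2, Real.sqrt 3 / 2⟩ : ℂ) * ((d : ℂ) * cis θ)) =
      -((⟨1 / 2, Real.sqrt 3 / 2⟩ : ℂ) * ((d : ℂ) * cis θ)) by ring, norm_neg, norm_mul,
      hρ, hn, one_mul]

/-- A labelling without right angle at the first two vertices. -/
theorem Fin_label {a b c : ℂ} (h : ((c - a) / (b - a)).im ≠ 0) :
    (((c - a) / (b - a)).re ≠ 0 ∧ ((c - a) / (b - a)).re ≠ 1) ∨
    (((a - b) / (c - b)).im ≠ 0 ∧ ((a - b) / (c - b)).re ≠ 0 ∧ ((a - b) / (c - b)).re ≠ 1) ∨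
    (((b - a) / (c - a)).im ≠ 0 ∧ ((b - a) / (c - a)).re ≠ 0 ∧ ((b - a) / (c - a)).re ≠ 1) := by
  set ρ : ℂ := (c - a) / (b - a) with hρ
  have hba : b - a ≠ 0 := by
    intro h0
    rw [hρ, h0, div_zero] at h
    exact h rfl
  have hca : c - a = ρ * (b - a) := by
    rw [hρ, div_mul_cancel₀ _ hba]
  by_cases h0 : ρ.re = 0
  · right
    left
    have h1 : (a - b) / (c - b) = 1 / (1 - ρ) := by
      have h2 : c - b = (ρ - 1) * (b - a) := by linear_combination hca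
      have h3 : ρ - 1 ≠ 0 := by
        intro h3
        rw [sub_eq_zero] at h3
        rw [h3] at h
        exact h rfl
      have h4 : 1 - ρ ≠ 0 := by
        intro h4
        apply h3
        linear_combination -h4
      rw [h2, div_eq_div_iff (mul_ne_zero h3 hba) h4]
      ring
    rw [h1]
    have h5 : normSq (1 - ρ) = 1 + ρ.im ^ 2 := by
      rw [normSq_apply, sub_re, sub_im, one_re, one_im, h0]
      ring
    have h6 : 0 < 1 + ρ.im ^ 2 := by positivity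
    have h7 : (1 / (1 - ρ)).re = 1 / (1 + ρ.im ^ 2) := by
      rw [one_div, inv_re, h5, sub_re, one_re, h0, sub_zero]
    have h8 : (1 / (1 - ρ)).im = ρ.im / (1 + ρ.im ^ 2) := by
      rw [one_div, inv_im, h5, sub_im, one_im, zero_sub, neg_neg]
    rw [h7, h8]
    refine ⟨div_ne_zero h h6.ne', div_ne_zero one_ne_zero h6.ne', ?_⟩
    intro h9
    rw [div_eq_one_iff_eq h6.ne'] at h9
    exact h (pow_eq_zero_iff (n := 2) (by norm_num) |>.1 (by linarith))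
  · by_cases h1' : ρ.re = 1
    · right
      right
      have h1 : (b - a) / (c - a) = 1 / ρ := by
        rw [hca]
        have h3 : ρ ≠ 0 := by
          intro h3
          rw [h3] at h
          exact h rfl
        rw [div_eq_div_iff (mul_ne_zero h3 hba) h3]
        ring
      rw [h1]
      have h5 : normSq ρ = 1 + ρ.im ^ 2 := by
        rw [normSq_apply, h1']
        ring
      have h6 : 0 < 1 + ρ.im ^ 2 := by positivity
      have h7 : (1 / ρ).re = 1 / (1 + ρ.im ^ 2) := by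
        rw [one_div, inv_re, h5, h1']
      have h8 : (1 / ρ).im = -ρ.im / (1 + ρ.im ^ 2) := by
        rw [one_div, inv_im, h5]
      rw [h7, h8]
      refine ⟨div_ne_zero (neg_ne_zero.2 h) h6.ne', div_ne_zero one_ne_zero h6.ne', ?_⟩
      intro h9
      rw [div_eq_one_iff_eq h6.ne'] at h9
      exact h (pow_eq_zero_iff (n := 2) (by norm_num) |>.1 (by linarith))
    · exact Or.inl ⟨h0, h1'⟩

/-- One labelled triangle. -/
theorem Fin_triangle (H : Fin_Hyps) {a b c : ℂ} (hi : ((c - a) / (b - a)).im ≠ 0)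
    (h0 : ((c - a) / (b - a)).re ≠ 0) (h1 : ((c - a) / (b - a)).re ≠ 1)
    (E : Set (EuclideanSpace ℝ (Fin 2))) (hE : MeasurableSet E)
    (hd : ∃ c : ℝ, 0 < c ∧ ∀ R : ℝ, ∃ r : ℝ, R ≤ r ∧
      ENNReal.ofReal (c * r ^ 2) ≤
        volume (E ∩ Metric.closedBall (0 : EuclideanSpace ℝ (Fin 2)) r)) :
    ∃ r₀ : ℝ, 0 < r₀ ∧ ∀ r : ℝ, r₀ ≤ r →
      ∃ φ : EuclideanSpace ℝ (Fin 2) ≃ᵢ EuclideanSpace ℝ (Fin 2),
        φ (r • Fin_e a) ∈ E ∧ φ (r • Fin_e b) ∈ E ∧ φ (r • Fin_e c) ∈ E := by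
  obtain ⟨d₀, hd₀, hmain⟩ := Fin_plane H hi h0 h1 E hE hd
  set ρ : ℂ := (c - a) / (b - a) with hρ
  have hba : b - a ≠ 0 := by
    intro h0
    rw [hρ, h0, div_zero] at hi
    exact hi rfl
  have hca : c - a = ρ * (b - a) := by
    rw [hρ, div_mul_cancel₀ _ hba]
  have hn : 0 < ‖b - a‖ := norm_pos_iff.2 hba
  refine ⟨d₀ / ‖b - a‖, div_pos hd₀ hn, fun r hr => ?_⟩
  have hr' : d₀ ≤ r * ‖b - a‖ := (div_le_iff₀ hn).1 hr
  obtain ⟨z, θ, p1, p2, p3⟩ := hmain (r * ‖b - a‖) hr'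
  set ω : ℂ := cis θ * (‖b - a‖ : ℂ) / (b - a) with hω
  have hω1 : ‖ω‖ = 1 := by
    rw [hω, norm_div, norm_mul, Fin_norm_cis, one_mul, Complex.norm_real, norm_norm,
      div_self hn.ne']
  have hωb : ω * (b - a) = cis θ * (‖b - a‖ : ℂ) := by
    rw [hω, div_mul_cancel₀ _ hba]
  let u : Circle := ⟨ω, mem_sphere_zero_iff_norm.2 hω1⟩
  let φ₀ : ℂ ≃ᵢ ℂ := ((IsometryEquiv.addRight (-((r : ℂ) * a))).trans
    (rotation u).toIsometryEquiv).trans (IsometryEquiv.addRight z)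
  have hφ₀ : ∀ w, φ₀ w = ω * (w + -((r : ℂ) * a)) + z := fun w => rfl
  refine ⟨(Fin_e.symm.toIsometryEquiv.trans φ₀).trans Fin_e.toIsometryEquiv, ?_, ?_, ?_⟩
  · show Fin_e (φ₀ (Fin_e.symm (r • Fin_e a))) ∈ E
    rw [map_smul, LinearIsometryEquiv.symm_apply_apply, hφ₀, Complex.real_smul]
    rw [show ω * ((r : ℂ) * a + -((r : ℂ) * a)) + z = z by ring]
    exact p1
  · show Fin_e (φ₀ (Fin_e.symm (r • Fin_e b))) ∈ E
    rw [map_smul, LinearIsometryEquiv.symm_apply_apply, hφ₀, Complex.real_smul]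
    rw [show ω * ((r : ℂ) * b + -((r : ℂ) * a)) + z = z + ((r * ‖b - a‖ : ℝ) : ℂ) * cis θ by
      push_cast
      linear_combination (r : ℂ) * hωb]
    exact p2
  · show Fin_e (φ₀ (Fin_e.symm (r • Fin_e c))) ∈ E
    rw [map_smul, LinearIsometryEquiv.symm_apply_apply, hφ₀, Complex.real_smul]
    rw [show ω * ((r : ℂ) * c + -((r : ℂ) * a)) + z =
        z + ρ * (((r * ‖b - a‖ : ℝ) : ℂ) * cis θ) by
      push_cast
      linear_combination (r : ℂ) * ρ * hωb + (r : ℂ) * ω * hca]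
    exact p3

/-- Q2 -/
theorem Fin_Q2 (H : Fin_Hyps) :
    ∀ E : Set (EuclideanSpace ℝ (Fin 2)), MeasurableSet E →
      (∃ c : ℝ, 0 < c ∧ ∀ R : ℝ, ∃ r : ℝ, R ≤ r ∧
        ENNReal.ofReal (c * r ^ 2) ≤
          volume (E ∩ Metric.closedBall (0 : EuclideanSpace ℝ (Fin 2)) r)) →
      ∀ x : Fin 3 → EuclideanSpace ℝ (Fin 2), ¬ Collinear ℝ (Set.range x) →
      ∃ r₀ : ℝ, 0 < r₀ ∧ ∀ r : ℝ, r₀ ≤ r →
        ∃ φ : EuclideanSpace ℝ (Fin 2) ≃ᵢ EuclideanSpace ℝ (Fin 2), ∀ i, φ (r • x i) ∈ E := by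
  intro E hE hd x hx
  set a : ℂ := Fin_e.symm (x 0) with ha
  set b : ℂ := Fin_e.symm (x 1) with hb
  set c : ℂ := Fin_e.symm (x 2) with hc
  have xa : x 0 = Fin_e a := (Fin_e.apply_symm_apply _).symm
  have xb : x 1 = Fin_e b := (Fin_e.apply_symm_apply _).symm
  have xc : x 2 = Fin_e c := (Fin_e.apply_symm_apply _).symm
  have him : ((c - a) / (b - a)).im ≠ 0 := by
    intro h
    apply hx
    rw [collinear_iff_of_mem (Set.mem_range_self 0)]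
    by_cases hba : b - a = 0
    · refine ⟨x 2 - x 0, ?_⟩
      rintro _ ⟨i, rfl⟩
      have h10 : x 1 = x 0 := by
        rw [xa, xb, sub_eq_zero.1 hba]
      fin_cases i
      · exact ⟨0, by simp⟩
      · exact ⟨0, by simp [h10]⟩
      · exact ⟨1, by simp⟩
    · refine ⟨x 1 - x 0, ?_⟩
      rintro _ ⟨i, rfl⟩
      fin_cases i
      · exact ⟨0, by simp⟩
      · exact ⟨1, by simp⟩
      · refine ⟨((c - a) / (b - a)).re, ?_⟩
        have h1 : c - a = (((c - a) / (b - a)).re : ℂ) * (b - a) := by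
          have h2 : ((c - a) / (b - a)) = (((c - a) / (b - a)).re : ℂ) :=
            Complex.ext rfl (by rw [h]; rfl)
          rw [← h2, div_mul_cancel₀ _ hba]
        show x 2 = ((c - a) / (b - a)).re • (x 1 - x 0) +ᵥ x 0
        have h3 : c = ((c - a) / (b - a)).re • (b - a) + a := by
          rw [Complex.real_smul, ← h1, sub_add_cancel]
        have h4 := congrArg Fin_e h3
        rw [map_add, map_smul, map_sub] at h4
        rw [vadd_eq_add, xa, xb, xc]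
        exact h4
  have key : ∃ r₀ : ℝ, 0 < r₀ ∧ ∀ r : ℝ, r₀ ≤ r →
      ∃ φ : EuclideanSpace ℝ (Fin 2) ≃ᵢ EuclideanSpace ℝ (Fin 2),
        φ (r • x 0) ∈ E ∧ φ (r • x 1) ∈ E ∧ φ (r • x 2) ∈ E := by
    rw [xa, xb, xc]
    rcases Fin_label him with ⟨h0, h1⟩ | ⟨hi, h0, h1⟩ | ⟨hi, h0, h1⟩
    · exact Fin_triangle H him h0 h1 E hE hd
    · obtain ⟨r₀, hr₀, h⟩ := Fin_triangle H hi h0 h1 E hE hd
      refine ⟨r₀, hr₀, fun r hr => ?_⟩
      obtain ⟨φ, q1, q2, q3⟩ := h r hr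
      exact ⟨φ, q3, q1, q2⟩
    · obtain ⟨r₀, hr₀, h⟩ := Fin_triangle H hi h0 h1 E hE hd
      refine ⟨r₀, hr₀, fun r hr => ?_⟩
      obtain ⟨φ, q1, q2, q3⟩ := h r hr
      exact ⟨φ, q1, q3, q2⟩
  obtain ⟨r₀, hr₀, h⟩ := key
  refine ⟨r₀, hr₀, fun r hr => ?_⟩
  obtain ⟨φ, q1, q2, q3⟩ := h r hr
  refine ⟨φ, fun i => ?_⟩
  fin_cases i
  · exact q1
  · exact q2
  · exact q3

end Pool.Agent.H24.Tri
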